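import Pool.Agent.helper37.KN.Haemers

/-!
# The fractional Haemers bounds are Kneser-normalised

For every field `F` the fractional Haemers bound `haemers F` is a spectral point of the semiring of
finite graphs (a theorem of Bukh and Cox, proved here as well), and it takes the value `p / q` on the
complement `KC p q` of the Kneser graph of the `q`-subsets of a `p`-set, for all `p ≥ 2 q ≥ 2`.

The lower bound uses polymatroid inequalities only (`Poly.bound`). Let `f(S)` be the dimension of
the span of the rows of a `d`-representation that belong to the family `S` of `q`-sets, divided by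
`d`. Adding to `S` a `q`-set disjoint from all members of `S` adds one to `f`. Write
`p = m q + t` with `t < q` and `f(all) = m + s`; then the family `L_S` of all `q`-subsets of a set `S`
of size `q + t` has `f(L_S) ≤ 1 + s`. If `2 t ≥ q` the same holds for the pair `(2 t - q, 2 s - 1)` by
submodularity, and the claim `t ≤ s q` for this pair is the claim for `(t, s)`. If `2 t ≤ q`, let
`λ(a)` be the average over all rotations of `f(J_x, J_(x+a)) - 1` for the cyclic intervals `J_x` of
length `q` in a cycle of length `2 q`. Then `λ(0) = 0`, `λ(q) = 1`, `λ(a + b) ≤ λ(a) + λ(b)` and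
`λ(a) + λ(2 t - a) ≤ 2 s`, and averaging over the ways to cut `q` along the multiples of `2 t` gives
`t ≤ s q`.
-/

set_option autoImplicit false

namespace Pool.Agent.helper37.Reserve.HaemersNormalised

open Pool.Agent.helper67.KN Pool.Agent.helper37.KN

theorem result (F : Type*) [Field F] :
    IsSpectralPoint (haemers F) ∧
      ∀ p q : ℕ, 1 ≤ q → 2 * q ≤ p →
        haemers F {s : Finset (Fin p) // s.card = q} (KC p q) = (p : ℝ) / q :=
  ⟨haemers_spectral F, fun p q hq hpq => haemers_KC F p q hq hpq⟩

end Pool.Agent.helper37.Reserve.HaemersNormalised
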